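import Pool.Agent.H52.FT.Targets

/-!
# FT module NUM: choice of the parameters
-/

set_option autoImplicit false

namespace Pool.Agent.H33.FT.NUM

open Pool.Agent.H52.FT

theorem num : T_NUM := by
  intro A e s t lam n J hA hs h1 h2 hlam hn hJ
  have hA' : (1 : ℝ) ≤ A := by exact_mod_cast hA
  have he' : (0 : ℝ) ≤ e := Nat.cast_nonneg e
  have hA0 : (0 : ℝ) < A := by linarith
  obtain ⟨c, hc⟩ : ∃ c, c = t / s := ⟨_, rfl⟩
  have ht : t = c * s := by rw [hc, div_mul_cancel₀ _ hs.ne']
  obtain ⟨p, hp⟩ : ∃ p, p = s ^ 3 := ⟨_, rfl⟩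
  have hp0 : 0 < p := by rw [hp]; positivity
  rw [← hp] at h1
  have h3 : p ≤ 25600 * c := by
    have h4 : p * s ≤ (25600 * c) * s := by
      calc p * s = s ^ 4 := by rw [hp]; ring
        _ ≤ 25600 * t := h2
        _ = (25600 * c) * s := by rw [ht]; ring
    exact le_of_mul_le_mul_right h4 hs
  have hcA : 1250000 * ((A : ℝ) + e) ≤ c := by nlinarith
  have hc0 : 1250000 ≤ c := by nlinarith
  have hlam' : lam = c * p := by rw [hlam, ht, hp]; ring
  have hn' : n = c ^ 3 * p := by rw [hn, ht, hp]; ring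
  have hcp : 0 < c * p := mul_pos (by linarith) hp0
  have hlam0 : 0 < lam := by rw [hlam']; exact hcp
  have hJ' : J ≤ 68 * c := by
    have h5 : 288 * n / lam = 288 * c ^ 2 := by
      rw [hn', hlam']
      field_simp
    have h6 : √(288 * n / lam) ≤ 16.971 * c := by
      rw [h5]
      refine Real.sqrt_le_iff.2 ⟨by positivity, ?_⟩
      nlinarith [sq_nonneg c]
    rw [hJ]
    nlinarith
  have hJ0 : 0 ≤ J := by
    rw [hJ]
    positivity
  refine ⟨hlam0, ?_, ?_, ?_⟩
  · rw [hlam', hn']
    have : 16 ≤ c ^ 2 := by nlinarith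
    nlinarith
  · rw [hlam']
    have h7 : 22848 * (e : ℝ) ≤ p := by nlinarith
    calc 336 * J * e ≤ 336 * (68 * c) * e := by
          have := mul_le_mul_of_nonneg_right (mul_le_mul_of_nonneg_left hJ' (by norm_num : (0:ℝ) ≤ 336)) he'
          exact this
      _ = c * (22848 * e) := by ring
      _ ≤ c * p := mul_le_mul_of_nonneg_left h7 (by linarith)
  · obtain ⟨U, hU⟩ : ∃ U, U = c ^ 2 * p / (17000 * A) := ⟨_, rfl⟩
    have hU0 : 0 ≤ U := by rw [hU]; positivity
    have hUA : U * (17000 * A) = c ^ 2 * p := by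
      rw [hU]
      field_simp
    refine ⟨⌊U⌋₊, ?_, ?_⟩
    · have h8 : U < ⌊U⌋₊ + 1 := Nat.lt_floor_add_one U
      have e1 : 16 * lam + (36 * n + 16) / lam = 16 * (c * p) + 36 * c ^ 2 + 16 / (c * p) := by
        rw [hn', hlam']
        field_simp
        ring
      have e2 : 36 * c ^ 2 ≤ U / 2 := by
        have h9 : 1224000 * (A : ℝ) ≤ p := by nlinarith
        have h10 : 36 * c ^ 2 * (34000 * A) ≤ U / 2 * (34000 * A) := by
          have : U / 2 * (34000 * A) = c ^ 2 * p := by rw [← hUA]; ring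
          rw [this]
          nlinarith [sq_nonneg c]
        exact le_of_mul_le_mul_right h10 (by positivity)
      have e3 : 16 * (c * p) ≤ U / 4 := by
        have h9 : 1088000 * (A : ℝ) ≤ c := by nlinarith
        have h10 : 16 * (c * p) * (68000 * A) ≤ U / 4 * (68000 * A) := by
          have : U / 4 * (68000 * A) = c ^ 2 * p := by rw [← hUA]; ring
          rw [this]
          nlinarith
        exact le_of_mul_le_mul_right h10 (by positivity)
      have hcp16 : 16 ≤ c * p := by nlinarith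
      have e4 : 16 / (c * p) ≤ 1 := by
        rw [div_le_one hcp]
        exact hcp16
      have e5 : 2 ≤ U / 4 := by linarith
      rw [e1]
      linarith
    · have h9 : (⌊U⌋₊ : ℝ) ≤ U := Nat.floor_le hU0
      calc 250 * A * J * (⌊U⌋₊ : ℝ) ≤ 250 * A * (68 * c) * U := by
            gcongr
        _ = c * (U * (17000 * A)) := by ring
        _ = n := by rw [hUA, hn']; ring

end Pool.Agent.H33.FT.NUM
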