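import Pool.Agent.H52.FT.Targets

/-!
# FT module PRE: lengthen and cut
-/

set_option autoImplicit false

namespace Pool.Agent.H33.FT.PRE

open Pool.Agent.H52.FT

variable {α : Type} [DecidableEq α]

lemma tot_single (S : Finset α) (a : α) : tot S [a] = if a ∈ S then 1 else 0 := by
  unfold tot
  by_cases h : a ∈ S
  · rw [if_pos h, Finset.sum_eq_single a]
    · simp
    · intro b _ hb
      exact List.count_eq_zero.2 fun h' => hb (List.mem_singleton.1 h')
    · intro h'
      exact absurd h h'
  · rw [if_neg h]
    refine Finset.sum_eq_zero fun b hb => List.count_eq_zero.2 fun h' => h ?_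
    rw [← List.mem_singleton.1 h']
    exact hb

lemma tot_replicate {S : Finset α} {a : α} (h : a ∈ S) (r : ℕ) : tot S (List.replicate r a) = r := by
  induction r with
  | zero => simp [tot]
  | succ r ih =>
    rw [List.replicate_succ', tot_append, ih, tot_single, if_pos h]

lemma cut (S : Finset α) : ∀ (v : List α) (m : ℕ), m ≤ tot S v → ∃ u b, v = u ++ b ∧ tot S u = m := by
  intro v
  induction v with
  | nil =>
    intro m hm
    refine ⟨[], [], rfl, ?_⟩
    have : tot S ([] : List α) = 0 := by simp [tot]
    omega
  | cons a v ih =>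
    intro m hm
    rcases Nat.eq_zero_or_pos m with h0 | h0
    · refine ⟨[], a :: v, rfl, ?_⟩
      rw [h0]
      simp [tot]
    · have h1 : tot S (a :: v) = tot S [a] + tot S v := by
        rw [← tot_append]
        rfl
      rw [tot_single] at h1
      by_cases h : a ∈ S
      · rw [if_pos h] at h1
        obtain ⟨u, b, h2, h3⟩ := ih (m - 1) (by omega)
        refine ⟨a :: u, b, by rw [h2]; rfl, ?_⟩
        have h4 : tot S (a :: u) = tot S [a] + tot S u := by
          rw [← tot_append]
          rfl
        rw [h4, tot_single, if_pos h, h3]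
        omega
      · rw [if_neg h] at h1
        obtain ⟨u, b, h2, h3⟩ := ih m (by omega)
        refine ⟨a :: u, b, by rw [h2]; rfl, ?_⟩
        have h4 : tot S (a :: u) = tot S [a] + tot S u := by
          rw [← tot_append]
          rfl
        rw [h4, tot_single, if_neg h, h3]
        omega

end Pool.Agent.H33.FT.PRE

namespace Pool.Agent.H33.FT.PRE

open Pool.Agent.H52.FT

theorem pre : T_PRE := by
  intro α _ S w M m hS hw hM hm
  obtain ⟨z, hz⟩ := hS
  have h1 : tot S (w ++ List.replicate (M - tot S w) z) = M := by
    rw [tot_append, tot_replicate hz]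
    omega
  obtain ⟨u, b, h2, h3⟩ := cut S (w ++ List.replicate (M - tot S w) z) m (by omega)
  refine ⟨u, b, fun L hL => ?_, by rw [← h2]; exact h1, h3⟩
  rw [← h2]
  exact (hw L hL).trans (List.sublist_append_left _ _)

end Pool.Agent.H33.FT.PRE
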